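import Pool.Agent.Work.MP_14a437_ag.B.Thm
import Pool.Agent.Work.MP_14a437_ag.L.Rank2
import Pool.Agent.Work.MP_14a437_ag.Hyp

/-!
# Semistable objects of radical class
-/

open CategoryTheory CategoryTheory.Limits CategoryTheory.Pretriangulated MP_14a437_ag

universe v u

namespace MP_14a437_ag.RadicalSemistable

theorem result {k : Type*} [Field k] [IsAlgClosed k] {C : Type u} [Category.{v} C]
    [Preadditive C] [HasZeroObject C] [HasShift C ℤ] [∀ n : ℤ, (shiftFunctor C n).Additive]
    [Pretriangulated C] [IsTriangulated C] [Linear k C] (hC : IsTubularCY2 k C)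
    (σ : StabCond C) (θ δ : ℝ) (hδ : 0 < δ)
    (hdisc : ∀ x : K0 C, (Complex.exp (-(Real.pi * θ * Complex.I)) * σ.Z x).im = 0 ∨
      δ ≤ |(Complex.exp (-(Real.pi * θ * Complex.I)) * σ.Z x).im|) :
    ∃ E : C, σ.P θ E ∧ ¬ IsZero E ∧ cl E ∈ radical hC.cy := by
  haveI := hC.free
  haveI := hC.finite
  have hCY := hC.cy
  have hpsd : ∀ x, 0 ≤ eulerForm hCY x x := fun x => by
    obtain ⟨X, rfl⟩ := exists_obj x
    rw [eulerForm_cl]; exact hC.semidefinite X
  obtain ⟨a, ha, b, hb, hab⟩ := exists_basis_rank_two (radical hCY) hC.rank_radical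
  refine exists_radical_semistable hCY hC.indecomposable hpsd ha hb hab σ θ hδ ?_
  intro x hx
  have h1 : 0 < -(Complex.exp (-(Real.pi * θ * Complex.I)) * σ.Z x).im := hx
  have h2 : ht σ θ x = -(Complex.exp (-(Real.pi * θ * Complex.I)) * σ.Z x).im := rfl
  rcases hdisc x with h | h
  · rw [h] at h1; simp at h1
  · rw [h2]
    rwa [abs_of_neg (by linarith)] at h

end MP_14a437_ag.RadicalSemistable
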