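import Pool.Agent.Work.MP_14a437_ag.T.Key
import Pool.Agent.Work.MP_14a437_ag.L.Rank2
import Pool.Agent.Work.MP_14a437_ag.Hyp

/-!
# Stable objects of arbitrarily large mass in every sector, for every stability condition
-/

open CategoryTheory CategoryTheory.Limits CategoryTheory.Pretriangulated MP_14a437_ag

universe v u

namespace MP_14a437_ag.StableInEverySector

theorem result {k : Type*} [Field k] {C : Type u} [Category.{v} C]
    [Preadditive C] [HasZeroObject C] [HasShift C ℤ] [∀ n : ℤ, (shiftFunctor C n).Additive]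
    [Pretriangulated C] [IsTriangulated C] [Linear k C] (hC : IsTubularCY2 k C)
    (σ : StabCond C) (s t R : ℝ) (hst : s < t) :
    ∃ (φ : ℝ) (X : C), s < φ ∧ φ < t ∧ TSimple (σ.P φ) X ∧ R < ‖σ.Z (cl X)‖ := by
  haveI := hC.free
  haveI := hC.finite
  have hCY := hC.cy
  have hpsd : ∀ x, 0 ≤ eulerForm hCY x x := fun x => by
    obtain ⟨X, rfl⟩ := exists_obj x
    rw [eulerForm_cl]; exact hC.semidefinite X
  obtain ⟨a, ha, b, hb, hab⟩ := exists_basis_rank_two (radical hCY) hC.rank_radical
  exact key hCY hC.indecomposable hpsd ha hb hab σ s t hst R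

end MP_14a437_ag.StableInEverySector
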